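import Pool.Agent.helper21.BEY.SpecB
import Pool.Agent.helper59.DM.DV

/-!
# Project BEY (MP_4467b5_nt), row CLI (helper66): class one
-/

set_option autoImplicit false

namespace Pool.Agent.BEY

open Pool.Agent.helper84.DM Pool.Agent.helper78.ED Pool.Agent.DH Pool.Agent.LDH

/-- the bound of the mean square of the coefficients -/
theorem CLI_G (T κ x Cd : ℝ) (k K M : ℕ) (b : ℕ → ℂ) (hT : 1 ≤ T) (hκ : 0 < κ) (hCd : 1 ≤ Cd)
    (hkK : k ≤ K) (hx : 4 * κ * k ≤ x) (hM : 2 * (M : ℝ) ≤ T ^ (3 : ℝ))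
    (hd : ∀ n : ℕ, 1 ≤ n → d n ≤ Cd * (n : ℝ) ^ (κ / 3))
    (hb : ∀ n, ‖b n‖ ≤ (T ^ κ) ^ k * d n ^ k) :
    ∑ n ∈ Finset.Ioc M (2 * M), ‖b n‖ ^ 2 ≤ Cd ^ (2 * K) * ((M : ℝ) * T ^ x) := by
  have hT0 : 0 < T := by linarith
  have hTκ : 0 < T ^ κ := Real.rpow_pos_of_pos hT0 κ
  have h1 : ∀ n ∈ Finset.Ioc M (2 * M), ‖b n‖ ^ 2 ≤ Cd ^ (2 * K) * T ^ x := by
    intro n hn
    rw [Finset.mem_Ioc] at hn
    have hn1 : 1 ≤ n := by omega
    have hnT : (n : ℝ) ≤ T ^ (3 : ℝ) := by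
      refine le_trans ?_ hM
      exact_mod_cast hn.2
    have h2 : (n : ℝ) ^ (κ / 3) ≤ T ^ κ := by
      calc (n : ℝ) ^ (κ / 3) ≤ (T ^ (3 : ℝ)) ^ (κ / 3) :=
            Real.rpow_le_rpow (Nat.cast_nonneg n) hnT (by positivity)
        _ = T ^ κ := by
            rw [← Real.rpow_mul hT0.le]
            congr 1
            ring
    have hdn : d n ≤ Cd * T ^ κ :=
      (hd n hn1).trans (mul_le_mul_of_nonneg_left h2 (by linarith))
    have hd0 : 0 ≤ d n := by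
      unfold d
      positivity
    have h3 : ‖b n‖ ≤ Cd ^ k * (T ^ κ) ^ (2 * k) := by
      refine (hb n).trans ?_
      calc (T ^ κ) ^ k * d n ^ k ≤ (T ^ κ) ^ k * (Cd * T ^ κ) ^ k := by
            apply mul_le_mul_of_nonneg_left _ (by positivity)
            exact pow_le_pow_left₀ hd0 hdn k
        _ = Cd ^ k * (T ^ κ) ^ (2 * k) := by
            rw [mul_pow]
            ring
    have h4 : ‖b n‖ ^ 2 ≤ Cd ^ (2 * k) * (T ^ κ) ^ (4 * k) := by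
      calc ‖b n‖ ^ 2 ≤ (Cd ^ k * (T ^ κ) ^ (2 * k)) ^ 2 :=
            pow_le_pow_left₀ (norm_nonneg _) h3 2
        _ = Cd ^ (2 * k) * (T ^ κ) ^ (4 * k) := by
            rw [mul_pow, ← pow_mul, ← pow_mul]
            congr 1
            · congr 1
              ring
            · congr 1
              ring
    have h5 : (T ^ κ) ^ (4 * k) ≤ T ^ x := by
      rw [← Real.rpow_natCast, ← Real.rpow_mul hT0.le]
      apply Real.rpow_le_rpow_of_exponent_le hT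
      push_cast
      linarith
    have h6 : Cd ^ (2 * k) ≤ Cd ^ (2 * K) := pow_le_pow_right₀ hCd (by omega)
    calc ‖b n‖ ^ 2 ≤ Cd ^ (2 * k) * (T ^ κ) ^ (4 * k) := h4
      _ ≤ Cd ^ (2 * K) * T ^ x := mul_le_mul h6 h5 (by positivity) (by positivity)
  calc ∑ n ∈ Finset.Ioc M (2 * M), ‖b n‖ ^ 2
      ≤ ∑ _n ∈ Finset.Ioc M (2 * M), Cd ^ (2 * K) * T ^ x := Finset.sum_le_sum h1
    _ = Cd ^ (2 * K) * ((M : ℝ) * T ^ x) := by
        rw [Finset.sum_const, Nat.card_Ioc, nsmul_eq_mul]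
        have h7 : 2 * M - M = M := by omega
        rw [h7]
        ring

/-- the lower bound of the size -/
theorem CLI_V (T κ x σ : ℝ) (N k K i : ℕ) (hT : 1 ≤ T) (hN : 1 ≤ N) (hk : 1 ≤ k)
    (hkK : k ≤ K) (hik : i < k) (_hσ : 0 ≤ σ) (hσ1 : σ ≤ 1) (hx : 4 * κ * k ≤ x) :
    (((2 ^ i * N ^ k : ℕ) : ℝ)) ^ (2 * σ) * T ^ (-x) ≤
      4 ^ K * (K : ℝ) ^ 2 * (((N : ℝ) ^ σ * T ^ (-(2 * κ))) ^ k / k) ^ 2 := by
  have hT0 : 0 < T := by linarith
  have hN0 : (0 : ℝ) < N := by exact_mod_cast hN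
  have hk0 : (0 : ℝ) < k := by exact_mod_cast hk
  have h1 : (((2 ^ i * N ^ k : ℕ) : ℝ)) ^ (2 * σ) ≤ 4 ^ K * ((N : ℝ) ^ σ) ^ (2 * k) := by
    push_cast
    rw [Real.mul_rpow (by positivity) (by positivity)]
    have h2 : ((2 : ℝ) ^ i) ^ (2 * σ) ≤ 4 ^ K := by
      calc ((2 : ℝ) ^ i) ^ (2 * σ) ≤ ((2 : ℝ) ^ i) ^ (2 : ℝ) := by
            apply Real.rpow_le_rpow_of_exponent_le
            · exact one_le_pow₀ (by norm_num)
            · linarith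
        _ = 4 ^ i := by
            rw [Real.rpow_two, ← pow_mul, mul_comm i 2, pow_mul]
            norm_num
        _ ≤ 4 ^ K := pow_le_pow_right₀ (by norm_num) (by omega)
    have h3 : ((N : ℝ) ^ k) ^ (2 * σ) = ((N : ℝ) ^ σ) ^ (2 * k) := by
      rw [← Real.rpow_natCast, ← Real.rpow_mul hN0.le, ← Real.rpow_natCast, ← Real.rpow_mul hN0.le]
      congr 1
      push_cast
      ring
    rw [h3]
    exact mul_le_mul_of_nonneg_right h2 (by positivity)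
  have h4 : T ^ (-x) ≤ (T ^ (-(2 * κ))) ^ (2 * k) := by
    rw [← Real.rpow_natCast, ← Real.rpow_mul hT0.le]
    apply Real.rpow_le_rpow_of_exponent_le hT
    push_cast
    linarith
  have h5 : (1 : ℝ) ≤ (K : ℝ) ^ 2 / (k : ℝ) ^ 2 := by
    rw [one_le_div (by positivity)]
    apply pow_le_pow_left₀ hk0.le
    exact_mod_cast hkK
  calc (((2 ^ i * N ^ k : ℕ) : ℝ)) ^ (2 * σ) * T ^ (-x)
      ≤ (4 ^ K * ((N : ℝ) ^ σ) ^ (2 * k)) * (T ^ (-(2 * κ))) ^ (2 * k) :=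
        mul_le_mul h1 h4 (by positivity) (by positivity)
    _ = ((4 ^ K * ((N : ℝ) ^ σ) ^ (2 * k)) * (T ^ (-(2 * κ))) ^ (2 * k)) * 1 := (mul_one _).symm
    _ ≤ ((4 ^ K * ((N : ℝ) ^ σ) ^ (2 * k)) * (T ^ (-(2 * κ))) ^ (2 * k)) *
          ((K : ℝ) ^ 2 / (k : ℝ) ^ 2) := mul_le_mul_of_nonneg_left h5 (by positivity)
    _ = 4 ^ K * (K : ℝ) ^ 2 * (((N : ℝ) ^ σ * T ^ (-(2 * κ))) ^ k / k) ^ 2 := by
        rw [div_pow, ← pow_mul, mul_comm k 2, mul_pow]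
        ring

theorem CLI (hLVS : LVS_stmt) (hCPB : CPB_stmt) (hPWB : PWB_stmt) (hNUB : NUB_stmt) : CLI_stmt := by
  intro s₀ ε hs₀ hε
  rcases lt_or_ge 1 s₀ with hs1 | hs1
  · refine ⟨1, one_pos, fun δ _ _ => ⟨1, 1, 1, one_pos, le_rfl, one_pos, ?_⟩⟩
    intro T σ _ h1 h2
    exact absurd (h1.trans h2) (not_le.2 hs1)
  refine ⟨min (ε / 16) (min ((s₀ - 3 / 4) / 4) (1 / 16)),
    lt_min (by linarith) (lt_min (by linarith) (by norm_num)), ?_⟩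
  intro δ hδ hδ₀
  have hδ1 : δ ≤ ε / 16 := hδ₀.trans (min_le_left _ _)
  have hδ2 : δ ≤ (s₀ - 3 / 4) / 4 := hδ₀.trans ((min_le_right _ _).trans (min_le_left _ _))
  have hδ3 : δ ≤ 1 / 16 := hδ₀.trans ((min_le_right _ _).trans (min_le_right _ _))
  obtain ⟨κ, ε', hκ, hκ1, hε', hnum⟩ := hNUB s₀ (ε / 2) δ hs₀ hs1 (by linarith) hδ (by linarith)
    hδ2 hδ3
  obtain ⟨CL, hCL, hlv⟩ := hLVS ε' hε'
  obtain ⟨Cd₀, hCd₀, hdiv₀⟩ := divisor_bound (κ / 3) (by positivity)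
  obtain ⟨Cd, hCd, hdiv⟩ : ∃ Cd : ℝ, 1 ≤ Cd ∧ ∀ n : ℕ, 1 ≤ n → d n ≤ Cd * (n : ℝ) ^ (κ / 3) := by
    refine ⟨max Cd₀ 1, le_max_right _ _, fun n hn => (hdiv₀ n hn).trans ?_⟩
    exact mul_le_mul_of_nonneg_right (le_max_left _ _) (by positivity)
  obtain ⟨K, hK⟩ : ∃ K : ℕ, K = ⌊4 / δ⌋₊ := ⟨_, rfl⟩
  have hC₂ : (0 : ℝ) < Cd ^ (2 * K) + 4 ^ K * (K : ℝ) ^ 2 := by
    have : (0 : ℝ) < Cd ^ (2 * K) := by positivity
    positivity
  obtain ⟨CN, T₁, hCN, hnum'⟩ := hnum CL (Cd ^ (2 * K) + 4 ^ K * (K : ℝ) ^ 2) hCL hC₂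
  obtain ⟨T₂, hcp⟩ := hCPB δ hδ hδ3
  refine ⟨κ, (K + 1) * CN, max (max T₁ T₂) (max 2 ((2 ^ K : ℝ) ^ (1 / δ))), hκ, hκ1, by positivity, ?_⟩
  intro T σ hT hσ hσ1 N a W hN hN2 ha hW hsep hlarge
  have hT1 : T₁ ≤ T := (le_max_left _ _).trans ((le_max_left _ _).trans hT)
  have hT2 : T₂ ≤ T := (le_max_right _ _).trans ((le_max_left _ _).trans hT)
  have hT3 : 2 ≤ T := (le_max_left _ _).trans ((le_max_right _ _).trans hT)
  have hT4 : (2 ^ K : ℝ) ^ (1 / δ) ≤ T := (le_max_right _ _).trans ((le_max_right _ _).trans hT)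
  have hT0 : 0 < T := by linarith
  have hT5 : 1 ≤ T := by linarith
  have h2K : (2 : ℝ) ^ K ≤ T ^ δ := by
    calc (2 : ℝ) ^ K = ((2 ^ K : ℝ) ^ (1 / δ)) ^ δ := by
          rw [← Real.rpow_mul (by positivity), one_div, inv_mul_cancel₀ hδ.ne', Real.rpow_one]
      _ ≤ T ^ δ := Real.rpow_le_rpow (by positivity) hT4 hδ.le
  have hσ0 : 3 / 4 < σ := by linarith
  have hNpos : (0 : ℝ) < N := by
    have : (0 : ℝ) < T ^ δ / 2 := by positivity
    linarith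
  have hN1 : 1 ≤ N := by
    have : 0 < N := by exact_mod_cast hNpos
    omega
  obtain ⟨k, hk1, hk2, hk3, hk4⟩ := hcp T σ hT2 hσ0.le hσ1 N hN hN2
  have hkK : k ≤ K := by
    rw [hK]
    exact Nat.le_floor hk2
  have hk0 : (0 : ℝ) < k := by exact_mod_cast hk1
  obtain ⟨x, hx⟩ : ∃ x : ℝ, x = 16 * κ / δ := ⟨_, rfl⟩
  have hkx : 4 * κ * k ≤ x := by
    rw [hx]
    calc 4 * κ * k ≤ 4 * κ * (4 / δ) := mul_le_mul_of_nonneg_left hk2 (by positivity)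
      _ = 16 * κ / δ := by ring
  obtain ⟨V, hV⟩ : ∃ V : ℝ, V = (N : ℝ) ^ σ * T ^ (-(2 * κ)) := ⟨_, rfl⟩
  have hVpos : 0 < V := by
    rw [hV]
    positivity
  obtain ⟨b, hb, hbt⟩ := hPWB N a (T ^ κ) V k hN1 (by positivity) hVpos.le hk1 ha
  have hV1 : 0 < V ^ k / k := by positivity
  -- the count in one block
  have hblock : ∀ i ∈ Finset.range k, (((W.filter (fun t => V ^ k / k ≤
      ‖DP (2 ^ i * N ^ k) b t‖)).card : ℕ) : ℝ) ≤
      CN * T ^ (ε / 2) * T ^ (3 / (2 * σ) * (1 - σ)) := by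
    intro i hi
    rw [Finset.mem_range] at hi
    obtain ⟨M, hM⟩ : ∃ M : ℕ, M = 2 ^ i * N ^ k := ⟨_, rfl⟩
    have hMr : (M : ℝ) = 2 ^ i * (N : ℝ) ^ k := by
      rw [hM]
      push_cast
      ring
    have hNk0 : (0 : ℝ) < (N : ℝ) ^ k := by positivity
    have hM1 : T ^ (1 / (2 * σ)) ≤ (M : ℝ) := by
      rw [hMr]
      refine hk3.trans ?_
      have : (1 : ℝ) ≤ 2 ^ i := one_le_pow₀ (by norm_num)
      nlinarith
    have hM2 : (M : ℝ) ≤ T ^ (3 / (4 * σ) + 4 * δ) := by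
      have h1 : (2 : ℝ) ^ i ≤ 2 ^ K := pow_le_pow_right₀ (by norm_num) (by omega)
      calc (M : ℝ) = 2 ^ i * (N : ℝ) ^ k := hMr
        _ ≤ T ^ δ * T ^ (3 / (4 * σ) + 3 * δ) :=
            mul_le_mul (h1.trans h2K) hk4 (by positivity) (by positivity)
        _ = T ^ (3 / (4 * σ) + 4 * δ) := by
            rw [← Real.rpow_add hT0]
            congr 1
            ring
    have hM3 : 1 ≤ M := by
      rw [hM]
      have : 0 < 2 ^ i * N ^ k := by positivity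
      omega
    have h2M : 2 * (M : ℝ) ≤ T ^ (3 : ℝ) := by
      have h3 : 3 / (4 * σ) + 4 * δ ≤ 2 := by
        have : 3 / (4 * σ) ≤ 1 := by
          rw [div_le_one (by linarith)]
          linarith
        linarith
      calc 2 * (M : ℝ) ≤ T * T ^ (2 : ℝ) := by
            apply mul_le_mul hT3 _ (by positivity) (by positivity)
            exact hM2.trans (Real.rpow_le_rpow_of_exponent_le hT5 h3)
        _ = T ^ (3 : ℝ) := by
            nth_rewrite 1 [← Real.rpow_one T]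
            rw [← Real.rpow_add hT0]
            norm_num
    obtain ⟨G, hG⟩ : ∃ G : ℝ, G = ∑ n ∈ Finset.Ioc M (2 * M), ‖b n‖ ^ 2 := ⟨_, rfl⟩
    have hG0 : 0 ≤ G := by
      rw [hG]
      positivity
    have hMT : 0 ≤ (M : ℝ) * T ^ x := by positivity
    have hG1 : G ≤ (Cd ^ (2 * K) + 4 ^ K * (K : ℝ) ^ 2) * ((M : ℝ) * T ^ x) := by
      rw [hG]
      refine (CLI_G T κ x Cd k K M b hT5 hκ hCd hkK hkx h2M hdiv hb).trans ?_
      apply mul_le_mul_of_nonneg_right _ hMT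
      have : (0 : ℝ) ≤ 4 ^ K * (K : ℝ) ^ 2 := by positivity
      linarith
    have hV2 : (M : ℝ) ^ (2 * σ) * T ^ (-x) ≤
        (Cd ^ (2 * K) + 4 ^ K * (K : ℝ) ^ 2) * (V ^ k / k) ^ 2 := by
      rw [hM, hV]
      refine (CLI_V T κ x σ N k K i hT5 hN1 hk1 hkK hi (by linarith) hσ1 hkx).trans ?_
      apply mul_le_mul_of_nonneg_right _ (by positivity)
      have : (0 : ℝ) ≤ Cd ^ (2 * K) := by positivity
      linarith
    rw [hx] at hG1 hV2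
    obtain ⟨h4, h5, h6⟩ := hnum' T σ M G (V ^ k / k) hT1 hσ hσ1 hM1 hM2 hG0 hG1 hV1 hV2
    rw [hG] at h5 h6
    rw [← hM]
    refine (hlv T T M b (V ^ k / k) _ hT5 hM3 h4 hV1 ?_ ?_ ?_ h5).trans h6
    · intro t ht
      have := hW t (Finset.mem_filter.1 ht).1
      exact ⟨this.1, by linarith [this.2]⟩
    · intro t ht s hs hts
      exact hsep t (Finset.mem_filter.1 ht).1 s (Finset.mem_filter.1 hs).1 hts
    · intro t ht
      exact (Finset.mem_filter.1 ht).2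
  -- the sum over the blocks
  have hcover : W ⊆ (Finset.range k).biUnion (fun i => W.filter (fun t => V ^ k / k ≤
      ‖DP (2 ^ i * N ^ k) b t‖)) := by
    intro t ht
    obtain ⟨i, hi, hi2⟩ := hbt t (hV ▸ hlarge t ht)
    rw [Finset.mem_biUnion]
    exact ⟨i, hi, Finset.mem_filter.2 ⟨ht, hi2⟩⟩
  have hcard : (W.card : ℝ) ≤ ∑ i ∈ Finset.range k, (((W.filter (fun t => V ^ k / k ≤
      ‖DP (2 ^ i * N ^ k) b t‖)).card : ℕ) : ℝ) := by
    have h7 := (Finset.card_le_card hcover).trans Finset.card_biUnion_le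
    exact_mod_cast h7
  have hRHS : 0 ≤ CN * T ^ (ε / 2) * T ^ (3 / (2 * σ) * (1 - σ)) := by positivity
  have hTε : T ^ (ε / 2) ≤ T ^ ε := Real.rpow_le_rpow_of_exponent_le hT5 (by linarith)
  have hkK' : (k : ℝ) ≤ K + 1 := by
    have : (k : ℝ) ≤ K := by exact_mod_cast hkK
    linarith
  calc (W.card : ℝ) ≤ ∑ i ∈ Finset.range k, (((W.filter (fun t => V ^ k / k ≤
      ‖DP (2 ^ i * N ^ k) b t‖)).card : ℕ) : ℝ) := hcard
    _ ≤ ∑ _i ∈ Finset.range k, CN * T ^ (ε / 2) * T ^ (3 / (2 * σ) * (1 - σ)) :=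
        Finset.sum_le_sum hblock
    _ = k * (CN * T ^ (ε / 2) * T ^ (3 / (2 * σ) * (1 - σ))) := by
        rw [Finset.sum_const, Finset.card_range, nsmul_eq_mul]
    _ ≤ (K + 1) * (CN * T ^ (ε / 2) * T ^ (3 / (2 * σ) * (1 - σ))) :=
        mul_le_mul_of_nonneg_right hkK' hRHS
    _ = (K + 1) * CN * (T ^ (ε / 2) * T ^ (3 / (2 * σ) * (1 - σ))) := by ring
    _ ≤ (K + 1) * CN * (T ^ ε * T ^ (3 / (2 * σ) * (1 - σ))) := by
        apply mul_le_mul_of_nonneg_left _ (by positivity)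
        exact mul_le_mul_of_nonneg_right hTε (by positivity)
    _ = (K + 1) * CN * T ^ ε * T ^ (3 / (2 * σ) * (1 - σ)) := by ring

end Pool.Agent.BEY
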